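import Mathlib

/-!
Faces of 0/1-polytopes: definitions and the statements of the modules (see Paper.md).
-/

set_option autoImplicit false

namespace Pool.Agent.Lib.MP_257afc_co.ZO

/-- The real value of a bit. -/
def bv (b : Bool) : ℝ := if b = true then 1 else 0

/-- Affine functions of 0/1-points. -/
def Aff {D : Type} [Fintype D] (h : (D → Bool) → ℝ) : Prop :=
  ∃ (c : ℝ) (w : D → ℝ), ∀ y, h y = c + ∑ q, w q * bv (y q)

/-- `G` is the set of all points of a nonempty face of (the hull of) `S`. -/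
def IsFace {D : Type} [Fintype D] (S G : Set (D → Bool)) : Prop :=
  G.Nonempty ∧ ∃ h : (D → Bool) → ℝ, Aff h ∧ (∀ y ∈ S, h y ≤ 0) ∧ ∀ y, y ∈ G ↔ y ∈ S ∧ h y = 0

/-- `G` consists of `n` affinely independent points (dual affine functions exist). -/
def IsSimp {D : Type} [Fintype D] (G : Set (D → Bool)) (n : ℕ) : Prop :=
  ∃ (g : Fin n → D → Bool) (a : Fin n → (D → Bool) → ℝ), G = Set.range g ∧ (∀ i, Aff (a i)) ∧
    ∀ i j, a i (g j) = if i = j then 1 else 0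

/-- `G` is an affine `l`-cube: the image of the points of the `l`-cube under an affine map, and
some coordinates recover the point of the cube. -/
def IsCube {D : Type} [Fintype D] (G : Set (D → Bool)) (l : ℕ) : Prop :=
  ∃ (g : (Fin l → Bool) → D → Bool) (f : Fin l → D) (u : Fin l → Bool), G = Set.range g ∧
    (∀ q, Aff (fun x => bv (g x q))) ∧ ∀ x j, g x (f j) = xor (u j) (x j)

/-- No face of `S` is a simplex with `k + 1` points. -/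
def NS {D : Type} [Fintype D] (k : ℕ) (S : Set (D → Bool)) : Prop :=
  ∀ G, IsFace S G → ¬ IsSimp G (k + 1)

/-- No face of `S` is an `l`-cube. -/
def NC {D : Type} [Fintype D] (l : ℕ) (S : Set (D → Bool)) : Prop :=
  ∀ G, IsFace S G → ¬ IsCube G l

/-- `y` agrees with `u` on the index set `C` via `f`. -/
def Agree {D ι : Type} (f : ι → D) (u : ι → Bool) (C : Finset ι) (y : D → Bool) : Prop :=
  ∀ c ∈ C, y (f c) = u c

/-- Some point of `E` has the trace `A` on the index set `I`. -/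
def InT {D : Type} (E : Set (D → Bool)) (f : ℕ → D) (I A : Finset ℕ) : Prop :=
  ∃ y ∈ E, ∀ i ∈ I, (y (f i) = true ↔ i ∈ A)

/-- Module RAM. -/
def RamStatement : Prop := ∀ (C : Type) [Finite C] (m : ℕ), ∃ N : ℕ,
  ∀ (χ : Finset ℕ → C) (X : Finset ℕ), N ≤ X.card → ∃ Y : Finset ℕ, Y ⊆ X ∧ Y.card = m ∧
    ∀ K K' : Finset ℕ, K ⊆ Y → K' ⊆ Y → K.card = K'.card → χ K = χ K'

/-- Module SCALE, (4.2). -/
def ScaleStatement : Prop := ∀ (n0 : ℕ) (Lam : ℕ → ℕ), ∃ N : ℕ,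
  ∀ (m : Finset ℕ → ℕ) (B : Finset ℕ), N ≤ B.card →
    (∀ F, F ⊆ B → n0 ≤ F.card → 1 ≤ m F ∧ m F < F.card) →
    (∀ F F', F ⊆ F' → F' ⊆ B → n0 ≤ F.card → m F' ≤ m F) →
    ∃ (K : ℕ) (I : Finset ℕ), n0 ≤ K ∧ I ⊆ B ∧ Lam K ≤ I.card ∧ K ≤ I.card ∧
      ∀ F, F ⊆ I → F.card = K → m F = m I

/-- Module COMB, (4.4). -/
def CombStatement : Prop := ∀ (K m c n : ℕ), 1 ≤ m → ∃ N : ℕ,
  ∀ (I : Finset ℕ), N ≤ I.card → ∀ (iF : Finset ℕ → ℕ) (AF V : Finset ℕ → Finset ℕ),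
    (∀ F, F ⊆ I → F.card = K →
      iF F ∈ F ∧ AF F ⊆ F ∧ iF F ∉ AF F ∧ (AF F).card = m ∧ (V F).card ≤ c) →
    ∃ I1 : Finset ℕ, I1 ⊆ I ∧
      (∀ F, F ⊆ I1 → F.card = K → ∀ x ∈ V F, x ∈ I1 → x ∈ F) ∧
      ∃ (l : ℕ → ℕ) (B0 : Finset ℕ) (Fab : ℕ → ℕ → Finset ℕ),
        (∀ a, a < n → l a ∈ I1 ∧ l a ∉ B0) ∧
        (∀ a b, a < n → b < n → l a = l b → a = b) ∧
        B0 ⊆ I1 ∧ B0.card + 1 = m ∧
        ∀ a b, a < b → b < n → Fab a b ⊆ I1 ∧ (Fab a b).card = K ∧ iF (Fab a b) = l a ∧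
          AF (Fab a b) = insert (l b) B0 ∧ (∀ d, d < n → l d ∈ Fab a b → d = a ∨ d = b) ∧
          ∀ a' b', a' < b' → b' < n → (a, b) ≠ (a', b') →
            ∀ x, x ∈ Fab a b → x ∈ Fab a' b' → x ∈ B0 ∨ ∃ d, d < n ∧ x = l d

/-- Module STAR, section 1. -/
def StarStatement : Prop := ∀ (D : Type) [Fintype D] (k : ℕ) (S E : Set (D → Bool)), NS k S →
  IsFace S E → ∀ (ι : Type) (f : ι → D) (u : ι → Bool) (C X : Finset ι), X ⊆ C →
    (∀ y ∈ E, ∃ c ∈ C, y (f c) ≠ u c ∧ ∀ c' ∈ C, c' ≠ c → y (f c') = u c') →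
    (∀ c ∈ X, ∃ y ∈ E, y (f c) ≠ u c) → X.card ≤ k

/-- Module KD, (2.1). -/
def NearStatement : Prop := ∀ (D : Type) [Fintype D] (k : ℕ) (S E : Set (D → Bool)), NS k S →
  IsFace S E → ∀ (ι : Type) (f : ι → D) (u : ι → Bool) (C X : Finset ι), X ⊆ C →
    (¬ ∃ y ∈ E, Agree f u C y) →
    (∀ c ∈ X, ∃ y ∈ E, ∀ c' ∈ C, c' ≠ c → y (f c') = u c') → X.card ≤ k

/-- Module KD, (2.2). -/
def KDStatement : Prop := ∀ (D : Type) [Fintype D] (k : ℕ) (S E : Set (D → Bool)), NS k S →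
  IsFace S E → ∀ (ι : Type) (f : ι → D) (u : ι → Bool) (C : Finset ι),
    (¬ ∃ y ∈ E, Agree f u C y) → ∃ W : Finset ι, W ⊆ C ∧ W.card ≤ k ∧ ¬ ∃ y ∈ E, Agree f u W y

/-- Module LEVEL, section 3. -/
def LevelStatement : Prop := ∀ k l : ℕ, ∃ n0 : ℕ, ∀ (D : Type) [Fintype D]
  (S E : Set (D → Bool)), NS k S → IsFace S E → ∀ (f : ℕ → D) (I : Finset ℕ), n0 ≤ I.card →
    InT E f I ∅ → (∀ i ∈ I, InT E f I {i}) →
    ∃ J : Finset ℕ, J ⊆ I ∧ J.card = l ∧ ∀ A, A ⊆ J → InT E f I A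

/-- Module MAIN, section 4. -/
def MainStatement : Prop := ∀ k l : ℕ, ∃ n1 : ℕ, ∀ (D : Type) [Fintype D]
  (S : Set (D → Bool)), NS k S → NC l S → ∀ (f : ℕ → D) (B : Finset ℕ),
    (fun _ => false) ∈ S → (∀ y ∈ S, (∀ b ∈ B, y (f b) = false) → y = fun _ => false) →
    ∀ (d : ℕ → D → Bool), (∀ b ∈ B, d b ∈ S) →
      (∀ b ∈ B, ∀ c ∈ B, (d b (f c) = true ↔ b = c)) → B.card < n1

/-- Section 5: the combinatorial form of the theorem. -/
def CoreStatement : Prop := ∀ k l : ℕ, ∃ N : ℕ, ∀ (D : Type) [Fintype D] (S : Set (D → Bool)),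
  N ≤ S.ncard → (∃ G, IsFace S G ∧ IsSimp G (k + 1)) ∨ ∃ G, IsFace S G ∧ IsCube G l

/-- Module GEOM: the theorem for convex hulls. -/
def GeomStatement : Prop := CoreStatement → ∀ k l : ℕ, ∃ N : ℕ, ∀ d : ℕ, N ≤ d →
  ∀ S : Finset (EuclideanSpace ℝ (Fin d)),
    affineSpan ℝ (S : Set (EuclideanSpace ℝ (Fin d))) = ⊤ →
    (∃ (m : ℕ) (φ : EuclideanSpace ℝ (Fin d) →ᵃ[ℝ] (Fin m → ℝ)), Function.Injective φ ∧
      ∀ x ∈ S, ∀ i, φ x i = 0 ∨ φ x i = 1) →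
    (∃ F : Set (EuclideanSpace ℝ (Fin d)), F.Nonempty ∧
      IsExposed ℝ (convexHull ℝ (S : Set (EuclideanSpace ℝ (Fin d)))) F ∧
      Module.finrank ℝ (affineSpan ℝ F).direction = k ∧
      ∃ T : Finset (EuclideanSpace ℝ (Fin d)), T.card = k + 1 ∧
        AffineIndependent ℝ (fun x : T => (x : EuclideanSpace ℝ (Fin d))) ∧
        F = convexHull ℝ (T : Set (EuclideanSpace ℝ (Fin d)))) ∨
    (∃ F : Set (EuclideanSpace ℝ (Fin d)), F.Nonempty ∧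
      IsExposed ℝ (convexHull ℝ (S : Set (EuclideanSpace ℝ (Fin d)))) F ∧
      Module.finrank ℝ (affineSpan ℝ F).direction = l ∧
      ∃ e : F.extremePoints ℝ ≃ ({x | ∀ i, x i = 0 ∨ x i = 1} : Set (Fin l → ℝ)),
        ∀ A : Set (F.extremePoints ℝ),
          (∃ G : Set (EuclideanSpace ℝ (Fin d)), IsExposed ℝ F G ∧
            Subtype.val '' A = G ∩ F.extremePoints ℝ) ↔
          ∃ H : Set (Fin l → ℝ),
            IsExposed ℝ (convexHull ℝ ({x | ∀ i, x i = 0 ∨ x i = 1} : Set (Fin l → ℝ))) H ∧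
            Subtype.val '' (e '' A) = H ∩ {x | ∀ i, x i = 0 ∨ x i = 1})

end Pool.Agent.Lib.MP_257afc_co.ZO
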